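import Pool.Agent.Run7.h973.RP.STEP

/-!
# Piece INNER of project RP (MP_6b57c7_an): polynomials almost unimodular on `BI`
-/

set_option autoImplicit false

noncomputable section

open MeasureTheory

namespace Run7.h973.RP

open Pool.Agent.Run7.h81.RP

theorem inner (hS : S_SETS) (hI : S_INT) (hSt : S_STEP) : S_INNER := by
  intro ε hε
  by_contra hc
  push Not at hc
  obtain ⟨hBm, hBIm, hBfin, hBIpos, huS, hu38, -⟩ := hS
  obtain ⟨c, hc0, hst⟩ := hSt
  have hBIfin : volume BI < ⊤ := (measure_mono BI_sub).trans_lt hBfin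
  obtain ⟨V, hV⟩ : ∃ V, V = volume.real BI := ⟨_, rfl⟩
  have hV0 : 0 < V := by rw [hV]; exact ENNReal.toReal_pos hBIpos.ne' hBIfin.ne
  have hint : ∀ p : Pol, IntegrableOn (fun z => ‖ev (u z) p‖ ^ 2) BI := fun p =>
    intBI hI (F := fun x => ‖ev x p‖ ^ 2) (cont_sq p)
  have hint2 : ∀ p : Pol, IntegrableOn (fun z => (1 - ‖ev (u z) p‖ ^ 2) ^ 2) BI := fun p =>
    intBI hI (F := fun x => (1 - ‖ev x p‖ ^ 2) ^ 2) ((continuous_const.sub (cont_sq p)).pow 2)
  have hintc : ∀ r : ℝ, IntegrableOn (fun _ : Fin 2 → ℂ => r) BI := fun r =>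
    integrableOn_const hBIfin.ne
  have hint1 : ∀ p : Pol, IntegrableOn (fun z => 1 - ‖ev (u z) p‖ ^ 2) BI := fun p =>
    intBI hI (F := fun x => 1 - ‖ev x p‖ ^ 2) (continuous_const.sub (cont_sq p))
  have hconst : ∀ r : ℝ, ∫ _ in BI, r = r * V := by
    intro r
    rw [setIntegral_const, hV, smul_eq_mul, mul_comm]
  have hone : ∀ p : Pol, ∫ z in BI, (1 - ‖ev (u z) p‖ ^ 2) = V - ∫ z in BI, ‖ev (u z) p‖ ^ 2 := by
    intro p
    rw [integral_sub (hintc 1) (hint p), hconst, one_mul]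
  obtain ⟨q, hq⟩ : ∃ q, q = c * ε ^ 2 / V := ⟨_, rfl⟩
  have hq0 : 0 < q := by rw [hq]; positivity
  -- the improvement
  have imp : ∀ g : Pol, MvPolynomial.constantCoeff g = 0 → (∀ x ∈ Sph, ‖ev x g‖ ≤ 1) →
      ∃ g' : Pol, MvPolynomial.constantCoeff g' = 0 ∧ (∀ x ∈ Sph, ‖ev x g'‖ ≤ 1) ∧
        (∫ z in BI, ‖ev (u z) g‖ ^ 2) + q / 2 ≤ ∫ z in BI, ‖ev (u z) g'‖ ^ 2 := by
    intro g hg0 hg1
    obtain ⟨η, hη⟩ : ∃ η, η = min 1 (q / (8 * V)) := ⟨_, rfl⟩
    have hη0 : 0 < η := by rw [hη]; positivity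
    have hη1 : η ≤ 1 := hη ▸ min_le_left _ _
    have hηq : 2 * η * V ≤ q / 4 := by
      have h1 : η ≤ q / (8 * V) := hη ▸ min_le_right _ _
      rw [le_div_iff₀ (by positivity)] at h1
      linarith
    have hev : ∀ x, ev x (MvPolynomial.C ((1 - η : ℝ) : ℂ) * g) = ((1 - η : ℝ) : ℂ) * ev x g := by
      intro x
      unfold ev
      rw [map_mul, MvPolynomial.eval_C]
    have hnorm : ∀ x, ‖ev x (MvPolynomial.C ((1 - η : ℝ) : ℂ) * g)‖ = (1 - η) * ‖ev x g‖ := by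
      intro x
      rw [hev, norm_mul, Complex.norm_real, Real.norm_of_nonneg (by linarith)]
    obtain ⟨g', h1, h2, h3⟩ := hst (MvPolynomial.C ((1 - η : ℝ) : ℂ) * g) η (q / 4)
      (by rw [map_mul, hg0, mul_zero]) hη0 (by positivity) (by
        intro x hx
        rw [hnorm]
        have := hg1 x hx
        nlinarith)
    refine ⟨g', h1, h2, le_trans ?_ h3⟩
    -- first term
    obtain ⟨p, hp⟩ : ∃ p, p = MvPolynomial.C ((1 - η : ℝ) : ℂ) * g := ⟨_, rfl⟩
    rw [← hp]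
    have hnorm' : ∀ x, ‖ev x p‖ = (1 - η) * ‖ev x g‖ := fun x => by rw [hp, hnorm]
    have hle1 : ∀ z ∈ BI, ‖ev (u z) g‖ ^ 2 ≤ 1 := by
      intro z hz
      have := hg1 (u z) (huS z hz.2.1)
      have h0 := norm_nonneg (ev (u z) g)
      nlinarith
    have ha1 : (∫ z in BI, ‖ev (u z) g‖ ^ 2) - q / 4 ≤ ∫ z in BI, ‖ev (u z) p‖ ^ 2 := by
      have h4 : ∫ z in BI, (‖ev (u z) g‖ ^ 2 - 2 * η) =
          (∫ z in BI, ‖ev (u z) g‖ ^ 2) - 2 * η * V := by
        rw [integral_sub (hint g) (hintc _), hconst]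
      have h5 : ∫ z in BI, (‖ev (u z) g‖ ^ 2 - 2 * η) ≤ ∫ z in BI, ‖ev (u z) p‖ ^ 2 := by
        refine setIntegral_mono_on ((hint g).sub (hintc _)) (hint p) hBIm fun z hz => ?_
        rw [hnorm', mul_pow]
        have := hle1 z hz
        have h0 : 0 ≤ ‖ev (u z) g‖ ^ 2 := by positivity
        nlinarith [mul_nonneg (sq_nonneg η) h0]
      linarith
    -- second term
    have ha2 : c * ε ^ 2 / V ≤ c * ∫ z in BI, (1 - ‖ev (u z) p‖ ^ 2) ^ 2 := by
      rw [mul_div_assoc]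
      refine mul_le_mul_of_nonneg_left ?_ hc0.le
      have h6 : ε ≤ ∫ z in BI, (1 - ‖ev (u z) p‖ ^ 2) := by
        refine (hc g hg0 hg1).le.trans ?_
        refine setIntegral_mono_on (hint1 g) (hint1 p) hBIm
          fun z hz => ?_
        rw [hnorm', mul_pow]
        have h0 : 0 ≤ ‖ev (u z) g‖ ^ 2 := by positivity
        have h7 : (1 - η) ^ 2 ≤ 1 := by nlinarith
        nlinarith [mul_le_mul_of_nonneg_right h7 h0]
      have h8 : ∫ z in BI, (2 * (ε / V) * (1 - ‖ev (u z) p‖ ^ 2) - (ε / V) ^ 2) =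
          2 * (ε / V) * (∫ z in BI, (1 - ‖ev (u z) p‖ ^ 2)) - (ε / V) ^ 2 * V := by
        rw [integral_sub ((hint1 p).const_mul _) (hintc _), integral_const_mul,
          hconst]
      have h9 : ∫ z in BI, (2 * (ε / V) * (1 - ‖ev (u z) p‖ ^ 2) - (ε / V) ^ 2) ≤
          ∫ z in BI, (1 - ‖ev (u z) p‖ ^ 2) ^ 2 := by
        refine setIntegral_mono_on (((hint1 p).const_mul _).sub (hintc _))
          (hint2 p) hBIm fun z _ => ?_
        nlinarith [sq_nonneg ((1 - ‖ev (u z) p‖ ^ 2) - ε / V)]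
      have h10 : ε ^ 2 / V = 2 * (ε / V) * ε - (ε / V) ^ 2 * V := by
        field_simp
        ring
      have h11 : 2 * (ε / V) * ε ≤ 2 * (ε / V) * ∫ z in BI, (1 - ‖ev (u z) p‖ ^ 2) :=
        mul_le_mul_of_nonneg_left h6 (by positivity)
      rw [h10]
      linarith
    rw [← hq] at ha2
    linarith
  -- iterate
  have iter : ∀ n : ℕ, ∃ g : Pol, MvPolynomial.constantCoeff g = 0 ∧ (∀ x ∈ Sph, ‖ev x g‖ ≤ 1) ∧
      n * (q / 2) ≤ ∫ z in BI, ‖ev (u z) g‖ ^ 2 := by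
    intro n
    induction n with
    | zero =>
      refine ⟨0, map_zero _, fun x _ => ?_, ?_⟩
      · have h : ev x (0 : Pol) = 0 := map_zero _
        rw [h, norm_zero]
        exact zero_le_one
      · rw [Nat.cast_zero, zero_mul]
        exact integral_nonneg fun z => by positivity
    | succ n ih =>
      obtain ⟨g, h1, h2, h3⟩ := ih
      obtain ⟨g', h4, h5, h6⟩ := imp g h1 h2
      refine ⟨g', h4, h5, ?_⟩
      push_cast
      linarith
  obtain ⟨n, hn⟩ := exists_nat_gt (V / (q / 2))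
  rw [div_lt_iff₀ (by positivity)] at hn
  obtain ⟨g, h1, h2, h3⟩ := iter n
  have h4 := hc g h1 h2
  rw [hone] at h4
  linarith

end Run7.h973.RP
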