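import Pool.Agent.Run7.h81.RP.I

/-!
# Piece STEP of project RP (MP_6b57c7_an): one improvement
-/

set_option autoImplicit false

noncomputable section

open MeasureTheory

namespace Run7.h973.RP

open Pool.Agent.Run7.h81.RP

lemma BI_sub : BI ⊆ B := fun _ hz => hz.1

lemma intBI (hI : S_INT) {F : (Fin 2 → ℂ) → ℝ} (hF : Continuous F) :
    IntegrableOn (fun z => F (u z)) BI := (hI F hF).mono_set BI_sub

lemma intC (hI : S_INT) {F : (Fin 2 → ℂ) → ℂ} (hF : Continuous F) :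
    IntegrableOn (fun z => F (u z)) BI := by
  have h1 : Integrable (fun z => (F (u z)).re) (volume.restrict BI) :=
    intBI hI (F := fun x => (F x).re) (Complex.continuous_re.comp hF)
  have h2 : Integrable (fun z => (F (u z)).im) (volume.restrict BI) :=
    intBI hI (F := fun x => (F x).im) (Complex.continuous_im.comp hF)
  have h3 := (h1.ofReal (𝕜 := ℂ)).add ((h2.ofReal (𝕜 := ℂ)).mul_const Complex.I)
  refine h3.congr (Filter.Eventually.of_forall fun z => ?_)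
  exact Complex.re_add_im _

lemma cont_ev (p : Pol) : Continuous fun x => ev x p := MvPolynomial.continuous_eval p

lemma cont_sq (p : Pol) : Continuous fun x => ‖ev x p‖ ^ 2 := (cont_ev p).norm.pow 2

lemma ev_add (x : Fin 2 → ℂ) (p q : Pol) : ev x (p + q) = ev x p + ev x q := map_add _ _ _

lemma ev_sum (x : Fin 2 → ℂ) (J : Finset ℕ) (P : ℕ → Pol) :
    ev x (∑ j ∈ J, P j) = ∑ j ∈ J, ev x (P j) := map_sum _ _ _

lemma orth_add (hI : S_INT) (hO : S_ORTH) (p q : Pol) (h : Disjoint p.support q.support) :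
    ∫ z in BI, ‖ev (u z) (p + q)‖ ^ 2 =
      (∫ z in BI, ‖ev (u z) p‖ ^ 2) + ∫ z in BI, ‖ev (u z) q‖ ^ 2 := by
  have h0 := hO.1 p q h
  have hc : Integrable (fun z => ev (u z) p * (starRingEnd ℂ) (ev (u z) q))
      (volume.restrict BI) :=
    intC hI (F := fun x => ev x p * (starRingEnd ℂ) (ev x q))
      ((cont_ev p).mul (Complex.continuous_conj.comp (cont_ev q)))
  have h1 : ∫ z in BI, (ev (u z) p * (starRingEnd ℂ) (ev (u z) q)).re = 0 := by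
    have h2 := integral_re hc
    rw [h0] at h2
    simpa using h2
  have hp : Integrable (fun z => ‖ev (u z) p‖ ^ 2) (volume.restrict BI) :=
    intBI hI (F := fun x => ‖ev x p‖ ^ 2) (cont_sq p)
  have hq : Integrable (fun z => ‖ev (u z) q‖ ^ 2) (volume.restrict BI) :=
    intBI hI (F := fun x => ‖ev x q‖ ^ 2) (cont_sq q)
  have hr : Integrable (fun z => 2 * (ev (u z) p * (starRingEnd ℂ) (ev (u z) q)).re)
      (volume.restrict BI) := hc.re.const_mul 2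
  have h3 : ∀ z, ‖ev (u z) (p + q)‖ ^ 2 = ‖ev (u z) p‖ ^ 2 + ‖ev (u z) q‖ ^ 2 +
      2 * (ev (u z) p * (starRingEnd ℂ) (ev (u z) q)).re := by
    intro z
    rw [ev_add, Complex.sq_norm, Complex.sq_norm, Complex.sq_norm, Complex.normSq_add]
  calc ∫ z in BI, ‖ev (u z) (p + q)‖ ^ 2
      = ∫ z in BI, (‖ev (u z) p‖ ^ 2 + ‖ev (u z) q‖ ^ 2 +
      2 * (ev (u z) p * (starRingEnd ℂ) (ev (u z) q)).re) := by
        exact integral_congr_ae (Filter.Eventually.of_forall fun z => h3 z)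
    _ = (∫ z in BI, (‖ev (u z) p‖ ^ 2 + ‖ev (u z) q‖ ^ 2)) +
        ∫ z in BI, 2 * (ev (u z) p * (starRingEnd ℂ) (ev (u z) q)).re :=
        integral_add (hp.add hq) hr
    _ = _ := by
        rw [integral_add hp hq, integral_const_mul, h1, mul_zero, add_zero]

lemma orth_sum (hI : S_INT) (hO : S_ORTH) (P : ℕ → Pol) (J : Finset ℕ)
    (hd : ∀ j ∈ J, ∀ j' ∈ J, j ≠ j' → Disjoint (P j).support (P j').support) :
    ∫ z in BI, ‖ev (u z) (∑ j ∈ J, P j)‖ ^ 2 = ∑ j ∈ J, ∫ z in BI, ‖ev (u z) (P j)‖ ^ 2 := by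
  classical
  induction J using Finset.induction_on with
  | empty =>
    simp only [Finset.sum_empty]
    have : ∀ z, ‖ev (u z) (0 : Pol)‖ ^ 2 = 0 := by
      intro z
      have h : ev (u z) (0 : Pol) = 0 := map_zero _
      rw [h]; simp
    simp only [this, integral_zero]
  | insert a s ha ih =>
    rw [Finset.sum_insert ha, Finset.sum_insert ha, orth_add hI hO, ih]
    · intro j hj j' hj' hne
      exact hd j (Finset.mem_insert_of_mem hj) j' (Finset.mem_insert_of_mem hj') hne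
    · refine Finset.disjoint_of_subset_right (MvPolynomial.support_sum) ?_
      rw [Finset.disjoint_biUnion_right]
      intro i hi
      exact hd a (Finset.mem_insert_self _ _) i (Finset.mem_insert_of_mem hi)
        (fun h => ha (h ▸ hi))

/-! ### The bumps -/

lemma norm_mj (k j : ℕ) (x : Fin 2 → ℂ) :
    ‖mj k j x‖ = (‖x 0‖ / Real.sqrt (j / k)) ^ j * (‖x 1‖ / Real.sqrt (1 - j / k)) ^ (k - j) := by
  unfold mj
  rw [norm_div, norm_mul, norm_pow, norm_pow, Complex.norm_real, Real.norm_of_nonneg (by positivity),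
    div_pow, div_pow, div_mul_div_comm]

/-- the Gaussian -/
def ga (K j : ℕ) (x : Fin 2 → ℂ) : ℝ :=
  Real.exp (-((K : ℝ) ^ 2 * ‖x 0‖ ^ 2 - j) ^ 2 / (16 * (K : ℝ) ^ 2))

lemma ga_pos (K j : ℕ) (x : Fin 2 → ℂ) : 0 < ga K j x := Real.exp_pos _

lemma ga_le_one (K j : ℕ) (x : Fin 2 → ℂ) : ga K j x ≤ 1 := by
  unfold ga
  rw [Real.exp_le_one_iff, neg_div]
  have : 0 ≤ ((K : ℝ) ^ 2 * ‖x 0‖ ^ 2 - j) ^ 2 / (16 * (K : ℝ) ^ 2) := by positivity
  linarith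

lemma norm_mj_le (hU : S_UP) {K j : ℕ} {x : Fin 2 → ℂ} (hK : 0 < K) (hx : x ∈ Sph)
    (h1 : K ^ 2 ≤ 4 * j) (h2 : 4 * j ≤ 3 * K ^ 2) : ‖mj (K ^ 2) j x‖ ≤ ga K j x := by
  rw [norm_mj]
  have h := hU (K ^ 2) j 0 0 ‖x 0‖ ‖x 1‖ (by positivity) h1 h2 (Nat.zero_le _) (Nat.zero_le _)
    (norm_nonneg _) (norm_nonneg _) hx
  simp only [Nat.sub_zero, Nat.cast_zero, add_zero, Real.exp_zero, one_mul] at h
  refine h.trans ?_
  unfold ga
  apply Real.exp_le_exp.mpr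
  push_cast
  have hK' : (0 : ℝ) < (K : ℝ) ^ 2 := by positivity
  rw [neg_div, neg_div]
  apply neg_le_neg
  apply div_le_div_of_nonneg_left (by positivity) (by positivity)
  linarith

lemma le_norm_mj (hL : S_LOW) {K j : ℕ} {x : Fin 2 → ℂ} (hK : 8 ≤ K) (hx : x ∈ Sph)
    (h1 : K ^ 2 ≤ 4 * j) (h2 : 4 * j ≤ 3 * K ^ 2) (h3 : 3 / 8 ≤ ‖x 0‖ ^ 2) (h4 : ‖x 0‖ ^ 2 ≤ 5 / 8)
    (h5 : ((K : ℝ) ^ 2 * ‖x 0‖ ^ 2 - j) ^ 2 ≤ (K : ℝ) ^ 2) :
    Real.exp (-28) ≤ ‖mj (K ^ 2) j x‖ := by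
  rw [norm_mj]
  refine hL (K ^ 2) j ‖x 0‖ ‖x 1‖ ?_ h1 h2 (norm_nonneg _) (norm_nonneg _) hx h3 h4 ?_
  · calc 64 = 8 ^ 2 := by norm_num
      _ ≤ K ^ 2 := Nat.pow_le_pow_left hK 2
  · push_cast
    exact h5

/-- the set of the centres -/
def JJ (K : ℕ) : Finset ℕ :=
  (Finset.range (K ^ 2 + 1)).filter fun j => K ^ 2 ≤ 4 * j ∧ 4 * j ≤ 3 * K ^ 2

lemma mem_JJ {K j : ℕ} : j ∈ JJ K ↔ K ^ 2 ≤ 4 * j ∧ 4 * j ≤ 3 * K ^ 2 := by
  unfold JJ
  rw [Finset.mem_filter, Finset.mem_range]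
  constructor
  · exact fun h => h.2
  · intro h
    exact ⟨by omega, h⟩

lemma sum_ga_class (hG : S_GAUSS) {K : ℕ} (hK : 0 < K) (o : ℕ) (x : Fin 2 → ℂ) :
    ∑ j ∈ (JJ K).filter (fun j => j % (16 * K) = o), ga K j x ≤ 2 :=
  hG K o _ ((K : ℝ) ^ 2 * ‖x 0‖ ^ 2) hK fun j hj => (Finset.mem_filter.mp hj).2

lemma sum_ga (hG : S_GAUSS) {K : ℕ} (hK : 0 < K) (x : Fin 2 → ℂ) :
    ∑ j ∈ JJ K, ga K j x ≤ 32 * K := by
  have h1 : ∀ j ∈ JJ K, j % (16 * K) ∈ Finset.range (16 * K) := fun j _ =>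
    Finset.mem_range.mpr (Nat.mod_lt _ (by omega))
  rw [← Finset.sum_fiberwise_of_maps_to h1]
  refine (Finset.sum_le_card_nsmul _ _ 2 fun o _ => sum_ga_class hG hK o x).trans ?_
  rw [Finset.card_range, nsmul_eq_mul]
  push_cast
  linarith

lemma sum_mj_sq (hL : S_LOW) {K : ℕ} {x : Fin 2 → ℂ} (hK : 8 ≤ K) (hx : x ∈ Sph)
    (h3 : 3 / 8 ≤ ‖x 0‖ ^ 2) (h4 : ‖x 0‖ ^ 2 ≤ 5 / 8) :
    K * Real.exp (-56) ≤ ∑ j ∈ JJ K, ‖mj (K ^ 2) j x‖ ^ 2 := by
  obtain ⟨X, hX⟩ : ∃ X, X = (K : ℝ) ^ 2 * ‖x 0‖ ^ 2 := ⟨_, rfl⟩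
  have hK' : (8 : ℝ) ≤ K := by exact_mod_cast hK
  have hXl : 3 / 8 * (K : ℝ) ^ 2 ≤ X := by rw [hX]; nlinarith [sq_nonneg (K : ℝ)]
  have hXu : X ≤ 5 / 8 * (K : ℝ) ^ 2 := by rw [hX]; nlinarith [sq_nonneg (K : ℝ)]
  have hX0 : 0 ≤ X := by rw [hX]; positivity
  obtain ⟨M, hM⟩ : ∃ M, M = ⌊X⌋₊ := ⟨_, rfl⟩
  have hM1 : (M : ℝ) ≤ X := by rw [hM]; exact Nat.floor_le hX0
  have hM2 : X < M + 1 := by rw [hM]; exact Nat.lt_floor_add_one X
  have hMK : K ≤ M := by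
    have h1 : (K : ℝ) < M + 1 := by nlinarith
    have h2 : K < M + 1 := by exact_mod_cast h1
    omega
  have key : ∀ i ∈ Finset.range K, Real.exp (-56) ≤ ‖mj (K ^ 2) (M - i) x‖ ^ 2 ∧ M - i ∈ JJ K := by
    intro i hi
    rw [Finset.mem_range] at hi
    have hc : ((M - i : ℕ) : ℝ) = M - i := by
      rw [Nat.cast_sub (by omega)]
    have hi' : (i : ℝ) + 1 ≤ K := by exact_mod_cast hi
    have hi0 : (0 : ℝ) ≤ i := Nat.cast_nonneg i
    have e1 : K ^ 2 ≤ 4 * (M - i) := by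
      have : (K : ℝ) ^ 2 ≤ 4 * ((M - i : ℕ) : ℝ) := by
        rw [hc]
        nlinarith
      exact_mod_cast this
    have e2 : 4 * (M - i) ≤ 3 * K ^ 2 := by
      have : 4 * ((M - i : ℕ) : ℝ) ≤ 3 * (K : ℝ) ^ 2 := by
        rw [hc]
        nlinarith
      exact_mod_cast this
    refine ⟨?_, mem_JJ.mpr ⟨e1, e2⟩⟩
    have h5 : ((K : ℝ) ^ 2 * ‖x 0‖ ^ 2 - (M - i : ℕ)) ^ 2 ≤ (K : ℝ) ^ 2 := by
      rw [← hX, hc]
      have a1 : 0 ≤ X - (M - i) := by linarith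
      have a2 : X - (M - i) ≤ K := by linarith
      exact pow_le_pow_left₀ a1 a2 2
    have h6 := le_norm_mj hL hK hx e1 e2 h3 h4 h5
    have h7 : Real.exp (-56) = Real.exp (-28) ^ 2 := by
      rw [← Real.exp_nat_mul]
      norm_num
    rw [h7]
    exact pow_le_pow_left₀ (Real.exp_pos _).le h6 2
  calc K * Real.exp (-56) = ∑ i ∈ Finset.range K, Real.exp (-56) := by
        rw [Finset.sum_const, Finset.card_range, nsmul_eq_mul]
    _ ≤ ∑ i ∈ Finset.range K, ‖mj (K ^ 2) (M - i) x‖ ^ 2 :=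
        Finset.sum_le_sum fun i hi => (key i hi).1
    _ = ∑ j ∈ (Finset.range K).image (fun i => M - i), ‖mj (K ^ 2) j x‖ ^ 2 := by
        rw [Finset.sum_image]
        intro i hi i' hi' h
        simp only [Finset.coe_range, Set.mem_Iio] at hi hi'
        simp only at h
        omega
    _ ≤ _ := by
        refine Finset.sum_le_sum_of_subset_of_nonneg ?_ fun _ _ _ => by positivity
        intro j hj
        rw [Finset.mem_image] at hj
        obtain ⟨i, hi, rfl⟩ := hj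
        exact (key i hi).2

/-! ### The step -/

theorem step (hS : S_SETS) (hI : S_INT) (hO : S_ORTH) (hU : S_UP) (hL : S_LOW) (hG : S_GAUSS)
    (hloc : S_LOC) : S_STEP := by
  classical
  obtain ⟨hBm, hBIm, hBfin, -, huS, hu38, -⟩ := hS
  refine ⟨Real.exp (-56) / 512, by positivity, fun g η ε hg0 hη hε hg => ?_⟩
  have hg1 : ∀ x ∈ Sph, ‖ev x g‖ ≤ 1 := fun x hx => (hg x hx).trans (by linarith)
  obtain ⟨N, hN⟩ := hloc g hg1
  obtain ⟨V, hV⟩ : ∃ V, V = volume.real BI := ⟨_, rfl⟩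
  have hV0 : 0 ≤ V := by rw [hV]; exact measureReal_nonneg
  obtain ⟨e, he0, he1, he2⟩ : ∃ e : ℝ, 0 < e ∧ 2 * e ≤ η ^ 2 / 2 ∧ 2 * e ^ 2 * V ≤ ε := by
    refine ⟨min (η ^ 2 / 4) (min 1 (ε / (2 * (V + 1)))), by positivity, ?_, ?_⟩
    · have := min_le_left (η ^ 2 / 4) (min 1 (ε / (2 * (V + 1))))
      linarith
    · have a1 : min (η ^ 2 / 4) (min 1 (ε / (2 * (V + 1)))) ≤ 1 :=
        (min_le_right _ _).trans (min_le_left _ _)
      have a2 : min (η ^ 2 / 4) (min 1 (ε / (2 * (V + 1)))) ≤ ε / (2 * (V + 1)) :=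
        (min_le_right _ _).trans (min_le_right _ _)
      obtain ⟨e, he⟩ : ∃ e, e = min (η ^ 2 / 4) (min 1 (ε / (2 * (V + 1)))) := ⟨_, rfl⟩
      have he0 : 0 < e := by rw [he]; positivity
      rw [← he] at a1 a2 ⊢
      rw [le_div_iff₀ (by positivity)] at a2
      nlinarith [mul_nonneg he0.le hV0]
  obtain ⟨K0, hK0⟩ := hN e he0
  obtain ⟨K, hK⟩ : ∃ K, K = max K0 (max 8 (N + g.totalDegree + 1)) := ⟨_, rfl⟩
  have hKK0 : K0 ≤ K := hK ▸ le_max_left _ _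
  have hK8 : 8 ≤ K := hK ▸ (le_max_left _ _).trans (le_max_right _ _)
  have hKN : N + g.totalDegree + 1 ≤ K := hK ▸ (le_max_right _ _).trans (le_max_right _ _)
  have hKpos : 0 < K := by omega
  have hKsq : 2 * N + g.totalDegree < K ^ 2 := by nlinarith
  have hKR : (0 : ℝ) < K := by exact_mod_cast hKpos
  have hex : ∀ j : ℕ, ∃ P : Pol, K ^ 2 ≤ 4 * j → 4 * j ≤ 3 * K ^ 2 →
        (∀ m ∈ P.support, j ≤ m 0 + N ∧ m 0 ≤ j + N ∧ K ^ 2 ≤ m 0 + m 1 + 2 * N) ∧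
        ∀ x ∈ Sph, ‖ev x P - mj (K ^ 2) j x * (((1 - ‖ev x g‖ ^ 2) / 4 : ℝ) : ℂ)‖ ≤
          e * ga K j x := by
    intro j
    by_cases h : K ^ 2 ≤ 4 * j ∧ 4 * j ≤ 3 * K ^ 2
    · obtain ⟨P, hP⟩ := hK0 K hKK0 j h.1 h.2
      exact ⟨P, fun _ _ => hP⟩
    · exact ⟨0, fun h1 h2 => absurd ⟨h1, h2⟩ h⟩
  choose P hP using hex
  have hPs : ∀ j ∈ JJ K, ∀ m ∈ (P j).support, j ≤ m 0 + N ∧ m 0 ≤ j + N ∧
      K ^ 2 ≤ m 0 + m 1 + 2 * N := fun j hj => (hP j (mem_JJ.mp hj).1 (mem_JJ.mp hj).2).1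
  have hPe : ∀ j ∈ JJ K, ∀ x ∈ Sph,
      ‖ev x (P j) - mj (K ^ 2) j x * (((1 - ‖ev x g‖ ^ 2) / 4 : ℝ) : ℂ)‖ ≤ e * ga K j x :=
    fun j hj => (hP j (mem_JJ.mp hj).1 (mem_JJ.mp hj).2).2
  -- the pointwise lower bound on `BI`
  have hpt : ∀ z ∈ BI, K * Real.exp (-56) * (1 - ‖ev (u z) g‖ ^ 2) ^ 2 / 32 - 32 * K * e ^ 2 ≤
      ∑ j ∈ JJ K, ‖ev (u z) (P j)‖ ^ 2 := by
    intro z hz
    have hx := huS z hz.2.1
    obtain ⟨x, hxd⟩ : ∃ x, x = u z := ⟨_, rfl⟩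
    have h38 := hu38 z hz
    rw [← hxd] at hx h38 ⊢
    obtain ⟨T, hT⟩ : ∃ T, T = (1 - ‖ev x g‖ ^ 2) / 4 := ⟨_, rfl⟩
    have hT0 : 0 ≤ T := by
      have := hg1 x hx
      have h0 := norm_nonneg (ev x g)
      rw [hT]
      nlinarith
    have h1 : ∀ j ∈ JJ K, ‖mj (K ^ 2) j x‖ ^ 2 * T ^ 2 / 2 - e ^ 2 * ga K j x ≤
        ‖ev x (P j)‖ ^ 2 := by
      intro j hj
      have h2 := hPe j hj x hx
      rw [← hT] at h2
      obtain ⟨a, ha⟩ : ∃ a, a = mj (K ^ 2) j x * (T : ℂ) := ⟨_, rfl⟩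
      rw [← ha] at h2
      have h3 : ‖a‖ ≤ ‖ev x (P j)‖ + ‖ev x (P j) - a‖ := by
        have := norm_sub_le (ev x (P j)) (ev x (P j) - a)
        rwa [sub_sub_cancel] at this
      have h4 : ‖a‖ = ‖mj (K ^ 2) j x‖ * T := by
        rw [ha, norm_mul, Complex.norm_real, Real.norm_of_nonneg hT0]
      have h5 := ga_pos K j x
      have h6 := ga_le_one K j x
      have h7 : ‖ev x (P j) - a‖ ^ 2 ≤ e ^ 2 * ga K j x := by
        calc ‖ev x (P j) - a‖ ^ 2 ≤ (e * ga K j x) ^ 2 := pow_le_pow_left₀ (norm_nonneg _) h2 2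
          _ = e ^ 2 * (ga K j x * ga K j x) := by ring
          _ ≤ e ^ 2 * (ga K j x * 1) := by gcongr
          _ = _ := by ring
      have h8 : ‖mj (K ^ 2) j x‖ ^ 2 * T ^ 2 = ‖a‖ ^ 2 := by rw [h4]; ring
      rw [h8]
      have h9 : ‖a‖ ^ 2 ≤ (‖ev x (P j)‖ + ‖ev x (P j) - a‖) ^ 2 :=
        pow_le_pow_left₀ (norm_nonneg _) h3 2
      nlinarith [sq_nonneg (‖ev x (P j)‖ - ‖ev x (P j) - a‖)]
    have h2 := sum_mj_sq hL hK8 hx h38.1 h38.2
    have h3 := sum_ga hG hKpos x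
    calc K * Real.exp (-56) * (1 - ‖ev x g‖ ^ 2) ^ 2 / 32 - 32 * K * e ^ 2
        = (K * Real.exp (-56)) * (T ^ 2 / 2) - (32 * K) * e ^ 2 := by rw [hT]; ring
      _ ≤ (∑ j ∈ JJ K, ‖mj (K ^ 2) j x‖ ^ 2) * (T ^ 2 / 2) - (∑ j ∈ JJ K, ga K j x) * e ^ 2 := by
          gcongr
      _ = ∑ j ∈ JJ K, (‖mj (K ^ 2) j x‖ ^ 2 * T ^ 2 / 2 - e ^ 2 * ga K j x) := by
          rw [Finset.sum_sub_distrib, Finset.sum_mul, Finset.sum_mul]
          congr 1
          · exact Finset.sum_congr rfl fun j _ => by ring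
          · exact Finset.sum_congr rfl fun j _ => by ring
      _ ≤ _ := Finset.sum_le_sum h1
  -- integrate
  have hint : ∀ p : Pol, IntegrableOn (fun z => ‖ev (u z) p‖ ^ 2) BI := fun p =>
    intBI hI (F := fun x => ‖ev x p‖ ^ 2) (cont_sq p)
  have hintT : IntegrableOn (fun z => (1 - ‖ev (u z) g‖ ^ 2) ^ 2) BI :=
    intBI hI (F := fun x => (1 - ‖ev x g‖ ^ 2) ^ 2) ((continuous_const.sub (cont_sq g)).pow 2)
  have hBIfin : volume BI < ⊤ := (measure_mono BI_sub).trans_lt hBfin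
  have hintc : ∀ c : ℝ, IntegrableOn (fun _ : Fin 2 → ℂ => c) BI := fun c =>
    integrableOn_const hBIfin.ne
  have htot : K * Real.exp (-56) / 32 * (∫ z in BI, (1 - ‖ev (u z) g‖ ^ 2) ^ 2) -
      32 * K * e ^ 2 * V ≤ ∑ j ∈ JJ K, ∫ z in BI, ‖ev (u z) (P j)‖ ^ 2 := by
    rw [← integral_finset_sum _ fun j _ => hint (P j)]
    have h1 : ∫ z in BI, (K * Real.exp (-56) / 32 * (1 - ‖ev (u z) g‖ ^ 2) ^ 2 -
        32 * K * e ^ 2) = K * Real.exp (-56) / 32 * (∫ z in BI, (1 - ‖ev (u z) g‖ ^ 2) ^ 2) -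
      32 * K * e ^ 2 * V := by
      rw [integral_sub (hintT.const_mul _) (hintc _), integral_const_mul, setIntegral_const, hV,
        smul_eq_mul]
      ring
    rw [← h1]
    refine setIntegral_mono_on ((hintT.const_mul _).sub (hintc _))
      (integrable_finset_sum _ fun j _ => hint (P j)) hBIm fun z hz => ?_
    have h2 := hpt z hz
    linarith
  -- choose the class
  obtain ⟨o, -, ho⟩ : ∃ o ∈ Finset.range (16 * K),
      Real.exp (-56) / 512 * (∫ z in BI, (1 - ‖ev (u z) g‖ ^ 2) ^ 2) - 2 * e ^ 2 * V ≤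
      ∑ j ∈ (JJ K).filter (fun j => j % (16 * K) = o), ∫ z in BI, ‖ev (u z) (P j)‖ ^ 2 := by
    have h1 : ∀ j ∈ JJ K, j % (16 * K) ∈ Finset.range (16 * K) := fun j _ =>
      Finset.mem_range.mpr (Nat.mod_lt _ (by omega))
    rw [← Finset.sum_fiberwise_of_maps_to h1] at htot
    refine Finset.exists_le_of_sum_le (Finset.nonempty_range_iff.mpr (by omega)) ?_
    rw [Finset.sum_const, Finset.card_range, nsmul_eq_mul]
    refine le_trans (le_of_eq ?_) htot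
    push_cast
    ring
  obtain ⟨J, hJ⟩ : ∃ J, J = (JJ K).filter (fun j => j % (16 * K) = o) := ⟨_, rfl⟩
  rw [← hJ] at ho
  have hJJ : ∀ j ∈ J, j ∈ JJ K ∧ j % (16 * K) = o := by
    intro j hj
    rw [hJ] at hj
    exact Finset.mem_filter.mp hj
  have hdis : ∀ j ∈ J, ∀ j' ∈ J, j ≠ j' → Disjoint (P j).support (P j').support := by
    intro j hj j' hj' hne
    rw [Finset.disjoint_left]
    intro m hm hm'
    obtain ⟨a1, a2, -⟩ := hPs j (hJJ j hj).1 m hm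
    obtain ⟨b1, b2, -⟩ := hPs j' (hJJ j' hj').1 m hm'
    have e1 := (hJJ j hj).2
    have e2 := (hJJ j' hj').2
    have e3 : j % (16 * K) = j' % (16 * K) := e1.trans e2.symm
    rcases lt_or_gt_of_ne hne with h | h
    · have h1 : 16 * K ∣ j' - j := (Nat.modEq_iff_dvd' h.le).mp e3
      have h2 := Nat.le_of_dvd (by omega) h1
      omega
    · have h1 : 16 * K ∣ j - j' := (Nat.modEq_iff_dvd' h.le).mp e3.symm
      have h2 := Nat.le_of_dvd (by omega) h1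
      omega
  have hsupp : ∀ m ∈ (∑ j ∈ J, P j).support, K ^ 2 ≤ m 0 + m 1 + 2 * N := by
    intro m hm
    have h1 := MvPolynomial.support_sum hm
    rw [Finset.mem_biUnion] at h1
    obtain ⟨j, hj, hmj⟩ := h1
    exact (hPs j (hJJ j hj).1 m hmj).2.2
  have hdg : Disjoint g.support (∑ j ∈ J, P j).support := by
    rw [Finset.disjoint_left]
    intro m hm hm'
    have h1 := hsupp m hm'
    have h2 := MvPolynomial.le_totalDegree hm
    have h3 : (m.sum fun _ e => e) = m 0 + m 1 := by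
      rw [Finsupp.sum_fintype _ _ (fun _ => rfl), Fin.sum_univ_two]
    rw [h3] at h2
    omega
  refine ⟨g + ∑ j ∈ J, P j, ?_, ?_, ?_⟩
  · rw [map_add, hg0, zero_add]
    by_contra h
    have h1 : (0 : Fin 2 →₀ ℕ) ∈ (∑ j ∈ J, P j).support := by
      rw [MvPolynomial.mem_support_iff]
      exact h
    have h2 := hsupp 0 h1
    simp only [Finsupp.coe_zero, Pi.zero_apply] at h2
    omega
  · intro x hx
    rw [ev_add, ev_sum]
    obtain ⟨T, hT⟩ : ∃ T, T = (1 - ‖ev x g‖ ^ 2) / 4 := ⟨_, rfl⟩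
    have hgx := hg1 x hx
    have hgη := hg x hx
    have hg00 := norm_nonneg (ev x g)
    have hT0 : 0 ≤ T := by rw [hT]; nlinarith
    have h1 : ∀ j ∈ J, ‖ev x (P j)‖ ≤ (T + e) * ga K j x := by
      intro j hj
      have h2 := hPe j (hJJ j hj).1 x hx
      rw [← hT] at h2
      have h3 := norm_mj_le hU hKpos hx (mem_JJ.mp (hJJ j hj).1).1 (mem_JJ.mp (hJJ j hj).1).2
      have h4 : ‖ev x (P j)‖ ≤ ‖mj (K ^ 2) j x * (T : ℂ)‖ +
          ‖ev x (P j) - mj (K ^ 2) j x * (T : ℂ)‖ := by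
        have := norm_add_le (mj (K ^ 2) j x * (T : ℂ)) (ev x (P j) - mj (K ^ 2) j x * (T : ℂ))
        rwa [add_sub_cancel] at this
      rw [norm_mul, Complex.norm_real, Real.norm_of_nonneg hT0] at h4
      have h5 := mul_le_mul_of_nonneg_right h3 hT0
      linarith
    have h2 : ‖∑ j ∈ J, ev x (P j)‖ ≤ (T + e) * 2 := by
      refine (norm_sum_le _ _).trans ((Finset.sum_le_sum h1).trans ?_)
      rw [← Finset.mul_sum, hJ]
      exact mul_le_mul_of_nonneg_left (sum_ga_class hG hKpos o x) (by linarith)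
    have h3 := norm_add_le (ev x g) (∑ j ∈ J, ev x (P j))
    have h4 : η ^ 2 ≤ (1 - ‖ev x g‖) ^ 2 := pow_le_pow_left₀ hη.le (by linarith) 2
    rw [hT] at h2
    nlinarith
  · rw [orth_add hI hO _ _ hdg, orth_sum hI hO P J hdis]
    linarith

end Run7.h973.RP
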